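import Pool.Agent.H97.SHL.Targets

/-!
# Row PH3 of the board `shl_modules`: the good narrow parts of one piece
-/

set_option autoImplicit false

namespace Pool.Agent.H99.SHL

open Finset Pool.Agent.H97.SHL

/-- the parts of `c` meet a set `R` in disjoint sets -/
theorem sum_inter_le {X K : Type} [Fintype X] [DecidableEq X] {D : X → ℝ} {U Y N : ℝ} {T₀ : ℕ}
    {𝓛 : Finset (Finset X)} {Lf : Finset X → Prop} {dc : Finset X → Finset (Finset X × K)}
    {nar gd : Finset X × K → Prop} {Fam : Finset X → Prop}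
    (h : Env D U Y N T₀ 𝓛 Lf dc nar gd Fam) (c R : Finset X) (F : Finset (Finset X × K))
    (hF : F ⊆ dc c) : ∑ p ∈ F, ((p.1 ∩ R).card : ℝ) ≤ ((c ∩ R).card : ℝ) := by
  have h1 : (F.biUnion fun p => p.1 ∩ R).card = ∑ p ∈ F, (p.1 ∩ R).card := by
    refine card_biUnion ?_
    intro p hp p' hp' hne
    exact (h.dis c p (hF hp) p' (hF hp') hne).mono inter_subset_left inter_subset_left
  have h2 : F.biUnion (fun p => p.1 ∩ R) ⊆ c ∩ R := by
    intro x hx
    obtain ⟨p, hp, hx⟩ := mem_biUnion.1 hx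
    rw [mem_inter] at hx ⊢
    exact ⟨h.sub c p (hF hp) hx.1, hx.2⟩
  have h3 := card_le_card h2
  rw [h1] at h3
  exact_mod_cast h3

theorem pf_PH3 (hSUM : T_SUM) (hPH1 : T_PH1) : T_PH3 := by
  classical
  intro X K _ _ D U Y N T₀ 𝓛 Lf dc nar gd Fam h A hA p hp c hc A' hA' hcA
  set F : Finset (Finset X × K) := (dc c).filter fun p => nar p ∧ gd p with hFdef
  have hFs : F ⊆ dc c := filter_subset _ _
  have hgs : gs dc nar gd c = F.biUnion Prod.fst := by
    rw [gs, hFdef]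
  have hU := h.U1
  have hY := h.Y0
  have hN := h.N1
  have h1 : ((gs dc nar gd c).card : ℝ) ≤ ∑ q ∈ F, (q.1.card : ℝ) := by
    rw [hgs]
    exact_mod_cast card_biUnion_le
  have h2 : ∀ q ∈ F, 3 * (q.1.card : ℝ) ≤ 8 * U * (((q.1 ∩ gs dc nar gd A').card : ℝ) +
      (q.1 ∩ ws dc nar A').card + N * Y) := by
    intro q hq
    have hq' := mem_filter.1 hq
    refine hPH1 X K D U Y N T₀ 𝓛 Lf dc nar gd Fam h q.1 A' hA'
      ((h.sub c q hq'.1).trans hcA) ?_ ?_
    · intro p' hp'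
      exact h.f4 A hA p hp c hc q hq'.1 A' hA' p' hp'
    · exact h.lo c (h.f3 A hA p hp c hc) q hq'.1 hq'.2.1 hq'.2.2
  have h3 : 3 * ∑ q ∈ F, (q.1.card : ℝ) ≤ 8 * U * (∑ q ∈ F, ((q.1 ∩ gs dc nar gd A').card : ℝ) +
      ∑ q ∈ F, ((q.1 ∩ ws dc nar A').card : ℝ) + F.card * (N * Y)) := by
    have h4 := sum_le_sum h2
    rw [← mul_sum, ← mul_sum, sum_add_distrib, sum_add_distrib, sum_const, nsmul_eq_mul] at h4
    exact h4
  have h5 := sum_inter_le h c (gs dc nar gd A') F hFs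
  have h6 := sum_inter_le h c (ws dc nar A') F hFs
  have h7 : (F.card : ℝ) ≤ N := (by exact_mod_cast card_le_card hFs : (F.card : ℝ) ≤
    ((dc c).card : ℝ)).trans (h.num c)
  have h8 : (F.card : ℝ) * (N * Y) ≤ N * (N * Y) :=
    mul_le_mul_of_nonneg_right h7 (mul_nonneg (by linarith) hY)
  calc 3 * ((gs dc nar gd c).card : ℝ) ≤ 3 * ∑ q ∈ F, (q.1.card : ℝ) := by linarith
    _ ≤ _ := h3
    _ ≤ _ := mul_le_mul_of_nonneg_left (by linarith) (by linarith)

end Pool.Agent.H99.SHL
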